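import Pool.Agent.Helper64.FL.StC

/-! `ST_BCF`: basic facts on cycles of connections. -/

set_option autoImplicit false

namespace Pool.Agent.Helper64.FL

open Pool.Agent.Helper64.CT Pool.Agent.Helper64.DT
open Pool.Agent.Helper64.HG (Ovl Model Circ IC HellyCircle ChordModel)

/-- a list without gaps inside `S` is connected in `S` -/
theorem bcf_cn (hCNB : ST_CNB) {V : Type} {G : SimpleGraph V} {S : Set V} :
    ∀ (L : List V) (a : V), IPt G L → L.head? = some a → (∀ v ∈ L, v ∈ S) →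
      ∀ v ∈ L, Cn G S a v := by
  obtain ⟨_, ctr, _, cst, _⟩ := hCNB V G
  intro L
  induction L with
  | nil => intro a _ h _ v hv; exact absurd hv List.not_mem_nil
  | cons b l ih =>
    intro a hI hh hS v hv
    have hab : b = a := by simpa using hh
    subst hab
    have hbS : b ∈ S := hS b List.mem_cons_self
    rcases List.mem_cons.1 hv with rfl | hvl
    · exact ⟨hbS, Relation.ReflTransGen.refl⟩
    · cases l with
      | nil => exact absurd hvl List.not_mem_nil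
      | cons c l =>
        have hI' : (∀ x ∈ (c :: l), b ≠ x) ∧ (∀ b' ∈ (c :: l).head?, G.Adj b b') ∧
            (∀ x ∈ (c :: l).tail, ¬ G.Adj b x) ∧ IPt G (c :: l) := hI
        have hbc : G.Adj b c := hI'.2.1 c (by simp)
        have hcS : c ∈ S := hS c (List.mem_cons_of_mem _ List.mem_cons_self)
        have h2 := ih c hI'.2.2.2 (by simp)
          (fun x hx => hS x (List.mem_cons_of_mem _ hx)) v hvl
        exact ctr S b c v (cst S b c hbS hcS hbc) h2

theorem st_BCF (hRAY : ST_RAY) (hNCF : ST_NCF) (_hSGF : ST_SGF) (hCNB : ST_CNB) : ST_BCF := by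
  intro V G Q σ E m q P u w B
  obtain ⟨csy, ctr, cmo, cst, ccp, _⟩ := hCNB V G
  obtain ⟨h1, h2, h3, h4, h5, h6⟩ := hRAY V G Q E.red.df E.mx
  have hm := B.m3
  have hn1 : ∀ i, q i ≠ q (i + 1) := fun i => B.inj i (i + 1) (by omega) (by omega)
  have hn2 : ∀ i, q i ≠ q (i + 2) := fun i => B.inj i (i + 2) (by omega) (by omega)
  have hlast : ∀ i, w (i + 1) ∈ P i := fun i => List.mem_of_mem_getLast? (B.lt i)
  have hcn : ∀ i, ∀ v ∈ P i, Cn G (ZZ G Q (q i) (q (i + 1))) (u i) v := fun i =>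
    bcf_cn hCNB (P i) (u i) (B.ip i) (B.hd i) (fun v hv => (B.zz i v hv).1)
  have hBE : ∀ i, BE G Q (q i) (q (i + 1)) (u i) (w (i + 1)) := fun i =>
    ⟨hn1 i, B.rU i, B.rW (i + 1), hcn i _ (hlast i)⟩
  have hC : ∀ i, ∀ z ∈ Q, z ≠ q i → z ≠ q (i + 1) → Comp G z (u i) (w (i + 1)) :=
    fun i z hz e1 e2 => (h4 _ _ _ _ (hBE i)).2.2.2.2 z hz e1 e2
  have hmem : ∀ i, ∀ z ∈ Q, z ≠ q i → z ≠ q (i + 1) → ∀ v ∈ P i, Comp G z (u i) v := by
    intro i z hz e1 e2 v hv
    rw [ccp]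
    refine cmo _ _ _ _ ?_ (hcn i v hv)
    intro x hx
    exact ⟨fun e => hx.1 (e ▸ hz), hx.2 z hz e1 e2⟩
  have hS : ∀ i, ∀ z ∈ Q, z ≠ q i → z ≠ q (i + 1) → z ≠ q (i + 2) →
      (σ (w (i + 1)) = σ (u (i + 1)) → Comp G z (w (i + 1)) (u (i + 1))) ∧
      (σ (w (i + 1)) ≠ σ (u (i + 1)) → Conf G z (w (i + 1)) (u (i + 1))) := by
    intro i z hz e0 e1 e2
    have hd := hNCF V G Q E.red.df E.mx (q (i + 1)) z (w (i + 1)) (u (i + 1)) (q i) (u i)
      (q (i + 2)) (w (i + 2)) (B.rW (i + 1)) (B.rU (i + 1)) hz e1 (B.rU i) (hn1 i)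
      (fun h => e0 h.symm) (hC i z hz e0 e1).symm (B.rW (i + 2)) (fun h => hn1 (i + 1) h.symm)
      (fun h => e2 h.symm) (hC (i + 1) z hz e1 e2)
    have hsg := E.sg (q (i + 1)) (w (i + 1)) (u (i + 1)) z (B.rW (i + 1)) (B.rU (i + 1)) hz e1
    constructor
    · intro hs
      rcases hd with h | h
      · exact h
      · exact absurd hs (hsg.2 h)
    · intro hs
      rcases hd with h | h
      · exact absurd (hsg.1 h) hs
      · exact h
  refine ⟨hBE, ⟨hm, B.pq, B.pu, B.pw, B.inj, B.rU, B.rW, ?_⟩, hC, hS, ?_⟩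
  · intro i j hij hj
    exact hC i (q j) (B.rU j).1 (fun h => B.inj i j (by omega) hj h.symm)
      (fun h => B.inj (i + 1) j hij (by omega) h.symm)
  · intro i h4m hs
    have e0 : q (i + 3) ≠ q i := fun h => B.inj i (i + 3) (by omega) (by omega) h.symm
    have e1 : q (i + 3) ≠ q (i + 1) := fun h => hn2 (i + 1) h.symm
    have e2 : q (i + 3) ≠ q (i + 2) := fun h => hn1 (i + 2) h.symm
    have hzQ : q (i + 3) ∈ Q := (B.rU (i + 3)).1
    have hcf := (hS i (q (i + 3)) hzQ e0 e1 e2).2 hs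
    intro x hx y hy
    have hx1 : Comp G (q (i + 3)) (u i) x := hmem i _ hzQ e0 e1 x hx
    have hy1 : Comp G (q (i + 3)) (u (i + 1)) y := hmem (i + 1) _ hzQ e1 e2 y hy
    have hwx : Comp G (q (i + 3)) (w (i + 1)) x := (hC i _ hzQ e0 e1).symm.trans hx1
    constructor
    · intro e
      subst e
      exact hcf.1 (hwx.trans hy1.symm)
    · intro hxy
      exact hcf.1 ((hwx.step hy1.right hxy).trans hy1.symm)

end Pool.Agent.Helper64.FL
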