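import Pool.Agent.Helper64.FL.StG

/-! Full list for MP_866009_co: ST_CA3, the centre of the claw or a vertex of the triangle is one of
the three vertices, or the centre is adjacent to one of them. -/

set_option autoImplicit false

namespace Pool.Agent.Helper64.FL

open Pool.Agent.Helper64.CT Pool.Agent.Helper64.DT

/-- the first interior vertex of a path with nonadjacent ends, and the rest reversed -/
theorem ca3_ext {V : Type} {G : SimpleGraph V} (h3 : ST_PTB) {g a : V} {l : List V}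
    (h : Pth G g l a) (hne : g ≠ a) (hna : ¬ G.Adj g a) :
    ∃ a' l', l = a' :: l' ∧ G.Adj a' g ∧ Pth G a l'.reverse a' ∧
      (∀ u, (u = a ∨ u ∈ l'.reverse ∨ u = a') → u ≠ g ∧ (u ∈ l ∨ u = a)) ∧
      (∀ u ∈ l'.reverse, ¬ G.Adj u g) := by
  obtain ⟨hrev, hbas, hcons, hnil, -, -⟩ := h3 V G
  cases l with
  | nil =>
    rcases hnil g a h with h' | h'
    · exact absurd h' hne
    · exact absurd h' hna
  | cons a' l' =>
    obtain ⟨h1, -, -, -, h5, h6⟩ := hcons g a' l' a h
    obtain ⟨b1, -, -⟩ := hbas g (a' :: l') a h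
    refine ⟨a', l', rfl, h1.symm, hrev _ _ _ h5, ?_, ?_⟩
    · rintro u (rfl | hu | rfl)
      · exact ⟨fun e => hne e.symm, Or.inr rfl⟩
      · have hu' : u ∈ l' := List.mem_reverse.1 hu
        exact ⟨fun e => (h6 u hu').1 e.symm, Or.inl (List.mem_cons_of_mem _ hu')⟩
      · exact ⟨fun e => b1 (by rw [← e]; exact List.mem_cons_self), Or.inl List.mem_cons_self⟩
    · intro u hu had
      exact (h6 u (List.mem_reverse.1 hu)).2 had.symm

theorem st_CA3 (h1 : ST_CA2) (h2 : ST_CIB) (h3 : ST_PTB) : ST_CA3 := by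
  intro V G hP v a b c hV hN
  obtain ⟨-, hB, -⟩ := h2 V G
  obtain ⟨-, -, nab, nac, nbc, aab, aac, abc, -, -, -⟩ := hB _ _ _ _ _ hV
  obtain ⟨hrev, hbas, hcons, hnil, hadj, htriv⟩ := h3 V G
  have h1' := h1 V G hP v a b c hV
  refine ⟨?_, ?_⟩
  · rintro o la lb lc hC (rfl | hoc)
    · -- centre `c`
      obtain ⟨g, la1, rfl, gc, pa1, ma1, na1⟩ := ca3_ext h3 hC.pa (Ne.symm nac)
        (fun e => aac e.symm)
      obtain ⟨h, lb1, rfl, hc, pb1, mb1, nb1⟩ := ca3_ext h3 hC.pb (Ne.symm nbc)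
        (fun e => abc e.symm)
      have gv : g ≠ v := hC.inS g (Or.inl List.mem_cons_self)
      have hv : h ≠ v := hC.inS h (Or.inr (Or.inl List.mem_cons_self))
      obtain ⟨-, ga1, -, ga2, pga, -⟩ := hcons _ _ _ _ hC.pa
      obtain ⟨-, gb1, -, gb2, pgb, -⟩ := hcons _ _ _ _ hC.pb
      have nga : ¬ G.Adj g a := fun e => (hN g gv).2.1 ⟨e, gc⟩
      have nhb : ¬ G.Adj h b := fun e => (hN h hv).2.2 ⟨e, hc⟩
      obtain ⟨a', la', rfl, a'g, pa2, ma2, na2⟩ := ca3_ext h3 pga ga2 nga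
      obtain ⟨b', lb', rfl, b'h, pb2, mb2, nb2⟩ := ca3_ext h3 pgb gb2 nhb
      have leg := hC.ab
      -- membership
      have mA : ∀ u, (u = a ∨ u ∈ la'.reverse ∨ u = a') →
          (u ∈ g :: a' :: la' ∨ (u = a ∧ a ≠ o)) := by
        intro u hu
        rcases (ma2 u hu).2 with h' | h'
        · exact Or.inl (List.mem_cons_of_mem _ h')
        · exact Or.inr ⟨h', nac⟩
      have mB : ∀ u, (u = b ∨ u ∈ lb'.reverse ∨ u = b') →
          (u ∈ h :: b' :: lb' ∨ (u = b ∧ b ≠ o)) := by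
        intro u hu
        rcases (mb2 u hu).2 with h' | h'
        · exact Or.inl (List.mem_cons_of_mem _ h')
        · exact Or.inr ⟨h', nbc⟩
      have mg : g ∈ g :: a' :: la' ∨ (g = a ∧ a ≠ o) := Or.inl List.mem_cons_self
      have mh : h ∈ h :: b' :: lb' ∨ (h = b ∧ b ≠ o) := Or.inl List.mem_cons_self
      refine h1' g h la'.reverse a' lb'.reverse b' ?_ (Or.inl ⟨(leg g mg h mh).1, ?_, ?_⟩)
      · refine ⟨gc.symm, hc.symm, a'g, b'h, pa2, pb2, ?_, ?_, ?_, ?_, ?_, gv.symm, hv.symm⟩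
        · intro u hu w hw
          exact leg u (mA u hu) w (mB w hw)
        · intro u hu
          refine ⟨?_, ?_, (ma2 u hu).1, (leg u (mA u hu) h mh).1, ?_⟩
          · rcases mA u hu with h' | h'
            · exact fun e => (hbas _ _ _ hC.pa).1 (e ▸ h')
            · exact fun e => h'.2 (h'.1 ▸ e)
          · rcases (ma2 u hu).2 with h' | h'
            · exact ((hcons _ _ _ _ hC.pa).2.2.2.2.2 u h').2
            · exact fun e => aac (h' ▸ e.symm)
          · rcases mA u hu with h' | h'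
            · exact hC.inS u (Or.inl h')
            · exact hC.inS u (by simp [h'.1])
        · intro u hu
          refine ⟨?_, ?_, (fun e => (leg g mg u (mB u hu)).1 e.symm), (mb2 u hu).1, ?_⟩
          · rcases mB u hu with h' | h'
            · exact fun e => (hbas _ _ _ hC.pb).1 (e ▸ h')
            · exact fun e => h'.2 (h'.1 ▸ e)
          · rcases (mb2 u hu).2 with h' | h'
            · exact ((hcons _ _ _ _ hC.pb).2.2.2.2.2 u h').2
            · exact fun e => abc (h' ▸ e.symm)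
          · rcases mB u hu with h' | h'
            · exact hC.inS u (Or.inr (Or.inl h'))
            · exact hC.inS u (by simp [h'.1])
        · exact ⟨fun _ e => nga e.symm, na2⟩
        · exact ⟨fun _ e => nhb e.symm, nb2⟩
      · intro u hu
        exact (leg u (mA u hu) h mh).2
      · intro u hu e
        exact (leg g mg u (mB u hu)).2 e.symm
    · -- centre adjacent to `c`
      have ov : o ≠ v := hC.oS
      have oc : o ≠ c := hoc.ne
      have noa : ¬ G.Adj o a := fun e => (hN o ov).2.1 ⟨e, hoc⟩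
      have nob : ¬ G.Adj o b := fun e => (hN o ov).2.2 ⟨e, hoc⟩
      have oa : o ≠ a := fun e => aac (e ▸ hoc)
      have ob : o ≠ b := fun e => abc (e ▸ hoc)
      obtain ⟨a', la', rfl, a'o, pa2, ma2, na2⟩ := ca3_ext h3 hC.pa oa noa
      obtain ⟨b', lb', rfl, b'o, pb2, mb2, nb2⟩ := ca3_ext h3 hC.pb ob nob
      have mA : ∀ u, (u = a ∨ u ∈ la'.reverse ∨ u = a') →
          (u ∈ a' :: la' ∨ (u = a ∧ a ≠ o)) := by
        intro u hu
        rcases (ma2 u hu).2 with h' | h'
        · exact Or.inl h'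
        · exact Or.inr ⟨h', oa.symm⟩
      have mB : ∀ u, (u = b ∨ u ∈ lb'.reverse ∨ u = b') →
          (u ∈ b' :: lb' ∨ (u = b ∧ b ≠ o)) := by
        intro u hu
        rcases (mb2 u hu).2 with h' | h'
        · exact Or.inl h'
        · exact Or.inr ⟨h', ob.symm⟩
      refine h1' o o la'.reverse a' lb'.reverse b' ?_
        (Or.inr ⟨rfl, fun e => noa e.symm, fun e => nob e.symm⟩)
      refine ⟨hoc.symm, hoc.symm, a'o, b'o, pa2, pb2, ?_, ?_, ?_, ?_, ?_, ov.symm, ov.symm⟩
      · intro u hu w hw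
        exact hC.ab u (mA u hu) w (mB w hw)
      · intro u hu
        have h' := hC.ac u (mA u hu) c (Or.inr ⟨rfl, oc.symm⟩)
        refine ⟨h'.1, fun e => h'.2 e.symm, (ma2 u hu).1, (ma2 u hu).1, ?_⟩
        rcases mA u hu with h' | h'
        · exact hC.inS u (Or.inl h')
        · exact hC.inS u (by simp [h'.1])
      · intro u hu
        have h' := hC.bc u (mB u hu) c (Or.inr ⟨rfl, oc.symm⟩)
        refine ⟨h'.1, fun e => h'.2 e.symm, (mb2 u hu).1, (mb2 u hu).1, ?_⟩
        rcases mB u hu with h' | h'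
        · exact hC.inS u (Or.inr (Or.inl h'))
        · exact hC.inS u (by simp [h'.1])
      · exact ⟨fun _ e => noa e.symm, na2⟩
      · exact ⟨fun _ e => nob e.symm, nb2⟩
  · rintro x y z la lb lc hT rfl
    have xv : x ≠ v := hT.inS x (by simp)
    have yv : y ≠ v := hT.inS y (by simp)
    have nxa : ¬ G.Adj x a := fun e => (hN x xv).2.1 ⟨e, hT.xz⟩
    have nyb : ¬ G.Adj y b := fun e => (hN y yv).2.2 ⟨e, hT.yz⟩
    have xa : x ≠ a := fun e => aac (e ▸ hT.xz)
    have yb : y ≠ b := fun e => abc (e ▸ hT.yz)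
    obtain ⟨a', la', rfl, a'x, pa2, ma2, na2⟩ := ca3_ext h3 hT.pa xa nxa
    obtain ⟨b', lb', rfl, b'y, pb2, mb2, nb2⟩ := ca3_ext h3 hT.pb yb nyb
    have mA : ∀ u, (u = a ∨ u ∈ la'.reverse ∨ u = a') → (u = x ∨ u ∈ a' :: la' ∨ u = a) :=
      fun u hu => Or.inr (ma2 u hu).2
    have mB : ∀ u, (u = b ∨ u ∈ lb'.reverse ∨ u = b') → (u = y ∨ u ∈ b' :: lb' ∨ u = b) :=
      fun u hu => Or.inr (mb2 u hu).2
    refine h1' x y la'.reverse a' lb'.reverse b' ?_ (Or.inl ⟨hT.xy.ne, ?_, ?_⟩)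
    · refine ⟨hT.xz.symm, hT.yz.symm, a'x, b'y, pa2, pb2, ?_, ?_, ?_, ?_, ?_, xv.symm, yv.symm⟩
      · intro u hu w hw
        have h' := hT.ab u (mA u hu) w (mB w hw)
        exact ⟨h'.1, fun e => (ma2 u hu).1 (h'.2 e).1⟩
      · intro u hu
        have h' := hT.ac u (mA u hu) z (Or.inl rfl)
        refine ⟨h'.1, fun e => (ma2 u hu).1 (h'.2 e.symm).1, (ma2 u hu).1,
          (hT.ab u (mA u hu) y (Or.inl rfl)).1, hT.inS u ?_⟩
        rcases mA u hu with h' | h' | h'
        · exact Or.inl h'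
        · exact Or.inr (Or.inr (Or.inr (Or.inl h')))
        · simp [h']
      · intro u hu
        have h' := hT.bc u (mB u hu) z (Or.inl rfl)
        refine ⟨h'.1, fun e => (mb2 u hu).1 (h'.2 e.symm).1,
          (fun e => (hT.ab x (Or.inl rfl) u (mB u hu)).1 e.symm), (mb2 u hu).1, hT.inS u ?_⟩
        rcases mB u hu with h' | h' | h'
        · exact Or.inr (Or.inl h')
        · exact Or.inr (Or.inr (Or.inr (Or.inr (Or.inl h'))))
        · simp [h']
      · exact ⟨fun _ e => nxa e.symm, na2⟩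
      · exact ⟨fun _ e => nyb e.symm, nb2⟩
    · intro u hu e
      exact (ma2 u hu).1 ((hT.ab u (mA u hu) y (Or.inl rfl)).2 e).1
    · intro u hu e
      exact (mb2 u hu).1 ((hT.ab x (Or.inl rfl) u (mB u hu)).2 e.symm).2

end Pool.Agent.Helper64.FL
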